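import Pool.Agent.Lib.MP_7d369a_lc.Cards

/-!
Comparison of the additivity and cofinality of two Yorioka ideals `I_f` and `I_g`: whenever `g` is
eventually below `H ∘ ⋯ ∘ H ∘ f` (finitely many copies of `H m = f (2 ^ m)`),
`add(I_f) ≤ add(I_g)` and `cof(I_g) ≤ cof(I_f)`.
-/

namespace Pool.Agent.Results.MP_7d369a_lc.ComparisonTheorem

open Filter Pool.Agent.Lib.MP_7d369a_lc

theorem result (f g : ℕ → ℕ) (hf : StrictMono f) (hg : StrictMono g) (r : ℕ)
    (h : ∀ᶠ n in atTop, g n ≤ (fun m => f (2 ^ m))^[r] (f n)) :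
    addIdeal (Yorioka f) ≤ addIdeal (Yorioka g) ∧
      cofIdeal (Yorioka g) ≤ cofIdeal (Yorioka f) :=
  compare hf hg h

end Pool.Agent.Results.MP_7d369a_lc.ComparisonTheorem
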