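import Pool.Agent.Lib.MP_7d369a_lc.Cards
import Pool.Agent.Lib.MP_7d369a_lc.BV.FIN
import Pool.Agent.Lib.MP_7d369a_lc.Forc.MNA
import Pool.Agent.Lib.MP_7d369a_lc.Forc.MNB

/-!
Complete answer to the question whether the additivities and the cofinalities of the Yorioka ideals
`I_f` and `I_id` are equal, for every strictly increasing `f`: they are equal in ZFC when `f` is
eventually below some finite iterate of `n ↦ 2 ^ n`, and otherwise both equalities fail in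
Boolean-valued models `V^B`, with `B` a ccc complete Boolean algebra.
-/

namespace Pool.Agent.Results.MP_7d369a_lc.Dichotomy

open Filter Pool.Agent.Lib.MP_7d369a_lc Pool.Agent.Lib.MP_7d369a_lc.BV Pool.Agent.Ladder

/-- diagonal function -/
theorem exists_fast : ∃ f : ℕ → ℕ, StrictMono f ∧
    ¬ ∃ k : ℕ, ∀ᶠ n in atTop, f n ≤ (fun m => 2 ^ m)^[k] n := by
  have hdiag : ∀ k : ℕ, StrictMono ((fun m : ℕ => 2 ^ m)^[k]) := fun k =>
    StrictMono.iterate (fun a b hab => Nat.pow_lt_pow_right (by norm_num) hab) k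
  have hle : ∀ k n : ℕ, n ≤ (fun m : ℕ => 2 ^ m)^[k] n := fun k n => (hdiag k).le_apply
  have hstep : ∀ k n : ℕ, (fun m : ℕ => 2 ^ m)^[k] n < (fun m : ℕ => 2 ^ m)^[k+1] n := by
    intro k n
    rw [Function.iterate_succ_apply']
    exact Nat.lt_two_pow_self
  have hmk : ∀ n : ℕ, StrictMono (fun k => (fun m : ℕ => 2 ^ m)^[k] n) := fun n =>
    strictMono_nat_of_lt_succ fun k => hstep k n
  refine ⟨fun n => (fun m : ℕ => 2 ^ m)^[n] n, ?_, ?_⟩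
  · apply strictMono_nat_of_lt_succ
    intro n
    exact (hstep n n).trans_le ((hdiag (n+1)).monotone (Nat.le_succ n))
  · rintro ⟨k, hk⟩
    obtain ⟨N, hN⟩ := eventually_atTop.1 hk
    have h1 := hN (max N (k+1)) (le_max_left _ _)
    have h2 : (fun m : ℕ => 2 ^ m)^[k] (max N (k+1)) <
        (fun m : ℕ => 2 ^ m)^[max N (k+1)] (max N (k+1)) :=
      hmk _ (lt_of_lt_of_le (Nat.lt_succ_self k) (le_max_right _ _))
    exact absurd h1 (not_le.2 h2)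

theorem result :
    (∃ (B : Type) (_ : CompleteBooleanAlgebra B), Nontrivial B ∧ BCCC B ∧
      addGtVal B id = ⊤ ∧ ∀ f : ℕ → ℕ, StrictMono f →
        (¬ ∃ k : ℕ, ∀ᶠ n in atTop, f n ≤ (fun m => 2 ^ m)^[k] n) → addGtVal B f = ⊥) ∧
    (∃ (B : Type) (_ : CompleteBooleanAlgebra B), Nontrivial B ∧ BCCC B ∧
      cofLeVal B id = ⊤ ∧ ∀ f : ℕ → ℕ, StrictMono f →
        (¬ ∃ k : ℕ, ∀ᶠ n in atTop, f n ≤ (fun m => 2 ^ m)^[k] n) → cofLeVal B f = ⊥) ∧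
    (∃ f : ℕ → ℕ, StrictMono f ∧ ¬ ∃ k : ℕ, ∀ᶠ n in atTop, f n ≤ (fun m => 2 ^ m)^[k] n) ∧
    (∀ f : ℕ → ℕ, StrictMono f → (∃ k : ℕ, ∀ᶠ n in atTop, f n ≤ (fun m => 2 ^ m)^[k] n) →
      addIdeal (Yorioka f) = addIdeal (Yorioka id) ∧
        cofIdeal (Yorioka f) = cofIdeal (Yorioka id)) ∧
    (∀ f : ℕ → ℕ, StrictMono f →
      (Yorioka f = Yorioka id ↔ ∃ k : ℕ, ∀ᶠ n in atTop, f n ≤ n ^ k)) := by
  refine ⟨?_, ?_, exists_fast, fun f hf ⟨_, hk⟩ => both_eq hf hk, fun f hf => eq_iff_poly hf⟩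
  · obtain ⟨B, i, h1, h2, h3, h4⟩ := add_theorem Forc.interfaceA
    exact ⟨B, i, h1, h2, h3, fun f hf hn => h4 f hf fun k hk => hn ⟨k, hk⟩⟩
  · obtain ⟨B, i, h1, h2, h3, h4⟩ := cof_theorem Forc.interfaceB
    exact ⟨B, i, h1, h2, h3, fun f hf hn => h4 f hf fun k hk => hn ⟨k, hk⟩⟩

end Pool.Agent.Results.MP_7d369a_lc.Dichotomy
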