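import Pool.Agent.Lib.MP_7d369a_lc.LocCards

/-!
`add(I_f) = min {b, b^Lc_{2^f,id}}` and `cof(I_f) = max {d, d^Lc_{2^f,id}}` for every strictly
increasing `f`.
-/

namespace Pool.Agent.Results.MP_7d369a_lc.LocalizationFormula

open Pool.Agent.Lib.MP_7d369a_lc

theorem result (f : ℕ → ℕ) (hf : StrictMono f) :
    addIdeal (Yorioka f) = min bNum (bLoc (fun n => 2 ^ f n)) ∧
      cofIdeal (Yorioka f) = max dNum (dLoc (fun n => 2 ^ f n)) :=
  characterization hf

end Pool.Agent.Results.MP_7d369a_lc.LocalizationFormula
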