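import Pool.Agent.Lib.MP_7d369a_lc.NullCards

/-!
The universal form of the question is a question about the null ideal `N`:
`add(I_f) = add(I_id)` for all strictly increasing `f` if and only if `add(I_id) = add(N)`, and
dually for the cofinality.
-/

namespace Pool.Agent.Results.MP_7d369a_lc.NullIdealReduction

open Pool.Agent.Lib.MP_7d369a_lc

theorem result :
    ((∀ f : ℕ → ℕ, StrictMono f → addIdeal (Yorioka f) = addIdeal (Yorioka id)) ↔
      addIdeal (Yorioka id) = addIdeal NullIdeal) ∧
    ((∀ f : ℕ → ℕ, StrictMono f → cofIdeal (Yorioka f) = cofIdeal (Yorioka id)) ↔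
      cofIdeal (Yorioka id) = cofIdeal NullIdeal) :=
  ⟨univ_add_iff, univ_cof_iff⟩

end Pool.Agent.Results.MP_7d369a_lc.NullIdealReduction
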